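import Pool.Agent.Helper4.CD.St

/-!
# Project CD, module BAS: choosing a basis among the rows
-/

set_option autoImplicit false

namespace Pool.Agent.Helper2.CD

open Pool.Agent.Helper4.CD
open Module

private lemma span_top_of_ker' {K : Type} [Field K] {V : Type} [AddCommGroup V] [Module K V] [FiniteDimensional K V]
    (S : Set (Dual K V)) (h : ∀ x : V, (∀ φ ∈ S, φ x = 0) → x = 0) : Submodule.span K S = ⊤ := by
  have h1 : (Submodule.span K S).dualCoannihilator = ⊥ := by
    rw [eq_bot_iff]
    intro x hx
    rw [Submodule.mem_dualCoannihilator] at hx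
    rw [Submodule.mem_bot]
    exact h x (fun φ hφ => hx φ (Submodule.subset_span hφ))
  have h2 : (Submodule.span K S).dualCoannihilator.dualAnnihilator = Submodule.span K S :=
    Subspace.dualCoannihilator_dualAnnihilator_eq
  rw [← h2, h1, Submodule.dualAnnihilator_bot]

theorem hBAS : StBAS := by
  intro K _ V _ _ _ κ _ c A hA
  have hspanA : Submodule.span K (c '' A) = ⊤ := by
    apply span_top_of_ker'
    intro x hx
    exact hA x (fun k hk => hx (c k) ⟨k, hk, rfl⟩)
  obtain ⟨b, hbA, -, hb2, hb3⟩ := exists_linearIndepOn_extension (K := K) (v := c) (s := (∅ : Set κ)) (t := A)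
    (linearIndepOn_empty K c) (Set.empty_subset A)
  have hspanb : Submodule.span K (c '' b) = ⊤ := by
    rw [eq_top_iff, ← hspanA]
    exact Submodule.span_le.2 hb2
  refine ⟨b, hbA, ?_, ?_⟩
  · have hr : Set.range (fun i : b => c i) = c '' b := by
      rw [Set.image_eq_range]
    let B : Basis b K (Dual K V) := Basis.mk (v := fun i : b => c i) hb3 (by rw [hr, hspanb])
    have h1 := Module.finrank_eq_nat_card_basis B
    rw [← h1]
    exact Subspace.dual_finrank_eq
  · intro x hx
    have h3 : ∀ φ : Dual K V, φ x = 0 := by
      intro φ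
      have hφ : φ ∈ Submodule.span K (c '' b) := by rw [hspanb]; trivial
      induction hφ using Submodule.span_induction with
      | mem y hy =>
        obtain ⟨k, hk, rfl⟩ := hy
        exact hx k hk
      | zero => rfl
      | add y z _ _ hy hz => rw [LinearMap.add_apply, hy, hz, add_zero]
      | smul a y _ hy => rw [LinearMap.smul_apply, hy, smul_zero]
    exact (Module.forall_dual_apply_eq_zero_iff K x).1 h3

end Pool.Agent.Helper2.CD
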