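import Pool.Agent.Helper4.CD.St

/-!
# Project CD, module PM: circuits of the lifted system
-/

set_option autoImplicit false

namespace Pool.Agent.Helper2.CD

open Pool.Agent.Helper4.CD
open Module

private lemma span_top_of_ker {K : Type} [Field K] {V : Type} [AddCommGroup V] [Module K V] [FiniteDimensional K V]
    (S : Set (Dual K V)) (h : ∀ x : V, (∀ φ ∈ S, φ x = 0) → x = 0) : Submodule.span K S = ⊤ := by
  have h1 : (Submodule.span K S).dualCoannihilator = ⊥ := by
    rw [eq_bot_iff]
    intro x hx
    rw [Submodule.mem_dualCoannihilator] at hx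
    rw [Submodule.mem_bot]
    exact h x (fun φ hφ => hx φ (Submodule.subset_span hφ))
  have h2 : (Submodule.span K S).dualCoannihilator.dualAnnihilator = Submodule.span K S :=
    Subspace.dualCoannihilator_dualAnnihilator_eq
  rw [← h2, h1, Submodule.dualAnnihilator_bot]

private lemma lift_inl {K : Type} [Field K] [LinearOrder K] {V W κ M : Type} [AddCommGroup V] [Module K V]
    [AddCommGroup W] [Module K W] (c : κ → Dual K V) (f : M → Dual K W) (τ : κ → Dual K W) (ε : K) (k : κ)
    (g : V × W) : lift c f τ ε (Sum.inl k) g = c k g.1 + ε * τ k g.2 := by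
  simp [lift]

private lemma lift_inr {K : Type} [Field K] [LinearOrder K] {V W κ M : Type} [AddCommGroup V] [Module K V]
    [AddCommGroup W] [Module K W] (c : κ → Dual K V) (f : M → Dual K W) (τ : κ → Dual K W) (ε : K) (m : M)
    (g : V × W) : lift c f τ ε (Sum.inr m) g = f m g.2 := by
  simp [lift]

theorem hPM : StPM := by
  intro K _ _ _ V W _ _ _ _ _ κ M c f τ ε g hf hg
  obtain ⟨hg0, hmin⟩ := hg
  refine ⟨?_, ?_⟩
  · intro h2
    refine ⟨?_, ?_⟩
    · intro h1
      exact hg0 (Prod.ext h1 h2)
    · intro x hx hker k hk
      have h := hmin (x, 0) (by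
        intro h
        exact hx (congrArg Prod.fst h)) (by
        rintro (k' | m) h'
        · rw [lift_inl, h2, map_zero, mul_zero, add_zero] at h'
          rw [lift_inl, map_zero, mul_zero, add_zero]
          exact hker k' h'
        · rw [lift_inr, map_zero]) (Sum.inl k) (by
        rw [lift_inl, map_zero, mul_zero, add_zero]
        exact hk)
      rw [lift_inl, h2, map_zero, mul_zero, add_zero] at h
      exact h
  · intro h2
    apply span_top_of_ker
    intro x hx
    by_contra hx0
    apply h2
    apply hf
    intro m
    have h := hmin (x, 0) (by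
      intro h
      exact hx0 (congrArg Prod.fst h)) (by
      rintro (k' | m') h'
      · rw [lift_inl, map_zero, mul_zero, add_zero]
        exact hx (c k') ⟨k', h', rfl⟩
      · rw [lift_inr, map_zero]) (Sum.inr m) (by
      rw [lift_inr, map_zero])
    rw [lift_inr] at h
    exact h

end Pool.Agent.Helper2.CD
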